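import Pool.Agent.N466.Poly.Lower
import Pool.Agent.N466.Poly.Upper3

/-!
The least number of colours of a polygon colouring with all vertex degrees at most three is seven.
-/

set_option autoImplicit false

namespace Pool.Agent.Results.MP_4637ab_co.SevenColours

open Set Pool.Agent.N466.Poly

/-- Seven is the least number of colours of a polygon colouring all of whose vertices have degree at
most three; the value seven is attained with convex regions. -/
theorem result :
    IsLeast {k : ℕ | ∃ P : PolygonColoring (Fin k), ∀ p ∈ P.vertices, P.degree p ≤ 3} 7 ∧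
    ∃ P : PolygonColoring (Fin 7), (∀ p ∈ P.vertices, P.degree p ≤ 3) ∧
      ∀ R ∈ P.regions, Convex ℝ R := by
  refine ⟨⟨⟨brickColoring, br_degree⟩, ?_⟩, brickColoring, br_degree, ?_⟩
  · rintro k ⟨P, hP⟩
    by_contra hk
    exact poly_lower (not_le.1 hk) P hP
  · rintro R ⟨n, r, rfl⟩
    exact reg_convex n r

end Pool.Agent.Results.MP_4637ab_co.SevenColours
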